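import Mathlib
import Pool.Agent.D0H59.NS.Cost
import Pool.Agent.D0H59.SU.Rel

/-!
# Numbers close to integers composed of fixed primes
-/

set_option autoImplicit false

open Finset Filter Topology

namespace Pool.Agent.D0H59.NS

open Pool.Agent.D0H59.SU

/-- sequences with `Y ^ q` close to `(u + B) ^ p`, `u` composed of primes in `S` -/
structure Near (p q : ℕ) (S : Finset ℕ) (β κ K : ℝ) where
  u : ℕ → ℕ
  B : ℕ → ℤ
  Y : ℕ → ℤ
  hu : ∀ m, u m ∈ Nat.factoredNumbers S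
  hB : ∀ m, |(B m : ℝ)| ≤ (u m : ℝ) ^ β
  hY : ∀ m, 0 ≤ Y m
  hk : ∀ m, |(Y m : ℝ) ^ q - ((u m : ℝ) + B m) ^ p| ≤ K / ((m : ℝ) + 1) * (u m : ℝ) ^ κ
  ht : Tendsto (fun m => (u m : ℝ)) atTop atTop

namespace Near

variable {p q : ℕ} {S : Finset ℕ} {β κ K : ℝ} (A : Near p q S β κ K)

/-- the logarithm of the main term -/
noncomputable def N (m : ℕ) : ℝ := Real.log (A.u m)

/-- the quotient of the perturbation and the main term -/
noncomputable def τ (m : ℕ) : ℝ := A.B m / A.u m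

lemma u_pos (m : ℕ) : 0 < A.u m := Nat.pos_of_ne_zero (A.hu m).1

lemma one_le_u (m : ℕ) : (1 : ℝ) ≤ A.u m := by exact_mod_cast A.u_pos m

lemma exp_N (m : ℕ) : Real.exp (A.N m) = A.u m := by
  unfold N
  rw [Real.exp_log (by exact_mod_cast A.u_pos m)]

lemma N_nonneg (m : ℕ) : 0 ≤ A.N m := Real.log_natCast_nonneg _

lemma rpow_u (m : ℕ) (t : ℝ) : (A.u m : ℝ) ^ t = Real.exp (t * A.N m) := by
  rw [Real.rpow_def_of_pos (by exact_mod_cast A.u_pos m), mul_comm]
  rfl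

lemma tendsto_N : Tendsto A.N atTop atTop := Real.tendsto_log_atTop.comp A.ht

lemma τ_le (m : ℕ) : |A.τ m| ≤ Real.exp (-((1 - β) * A.N m)) := by
  unfold τ
  rw [abs_div, Nat.abs_cast, div_le_iff₀ (by exact_mod_cast A.u_pos m)]
  refine (A.hB m).trans (le_of_eq ?_)
  rw [A.rpow_u, ← A.exp_N m, ← Real.exp_add]
  congr 1
  ring

lemma tendsto_τ (hβ : β < 1) : Tendsto A.τ atTop (𝓝 0) := by
  have h2 : Tendsto (fun m => Real.exp (-((1 - β) * A.N m))) atTop (𝓝 0) :=
    Real.tendsto_exp_neg_atTop_nhds_zero.comp (A.tendsto_N.const_mul_atTop (by linarith))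
  exact squeeze_zero_norm (fun m => A.τ_le m) h2

lemma ξ_eq (m : ℕ) : (A.u m : ℝ) + A.B m = A.u m * (1 + A.τ m) := by
  have h1 : (A.u m : ℝ) ≠ 0 := by exact_mod_cast (A.u_pos m).ne'
  unfold τ
  field_simp

/-- the relation -/
theorem rel (hp : 1 ≤ p) (hq : 1 ≤ q) (hβ0 : 0 ≤ β) (hβ1 : β < 1) (hK : 0 ≤ K) (J : ℕ)
    (hJ1 : β * (J * (J + 1) / 2) < p - p / q - κ)
    (hJ2 : β * (J * (J + 1) / 2) < (1 - β) * (J + 1) - p / q)
    (U : Ultrafilter ℕ) (hU : (U : Filter ℕ) ≤ atTop) :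
    ∃ (r : ℕ) (w : ℕ → ℕ) (s : Fin (J + 1) → ℚ), r ≠ 0 ∧ ∀ᶠ m in (U : Filter ℕ),
      w m ≠ 0 ∧ A.u m = r * w m ^ q ∧
      (A.Y m : ℚ) = (w m : ℚ) ^ p * ∑ i : Fin (J + 1), s i * ((A.B m : ℚ) / A.u m) ^ (i : ℕ) := by
  have hp0 : (0 : ℝ) < p := by exact_mod_cast hp
  have hq0 : (0 : ℝ) < q := by exact_mod_cast hq
  obtain ⟨R, hR⟩ := split S q hq
  choose r w hr0 hw0 hrR hrw hwp using fun m => hR (A.u m) (A.hu m)
  obtain ⟨r0, hr0'⟩ := const_of_finite U (Set.Icc 0 R) (Set.finite_Icc _ _) r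
    (Filter.Eventually.of_forall fun m => ⟨Nat.zero_le _, hrR m⟩)
  have hr00 : r0 ≠ 0 := by
    obtain ⟨m, hm⟩ := hr0'.exists
    rw [← hm]
    exact hr0 m
  have hwF : ∀ m, w m ∈ Nat.factoredNumbers S := fun m =>
    Nat.mem_factoredNumbers_of_primeFactors_subset (hw0 m)
      ((hwp m).trans (Nat.primeFactors_subset_of_mem_factoredNumbers (A.hu m)))
  have hwu : ∀ m, w m ≤ A.u m := by
    intro m
    calc w m = w m ^ 1 := (pow_one _).symm
      _ ≤ w m ^ q := Nat.pow_le_pow_right (Nat.pos_of_ne_zero (hw0 m)) hq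
      _ ≤ r m * w m ^ q := Nat.le_mul_of_pos_left _ (Nat.pos_of_ne_zero (hr0 m))
      _ = A.u m := (hrw m).symm
  set a : ℝ := (p : ℝ) / q with ha
  set α : ℚ := (p : ℚ) / q with hα
  have hαR : ((α : ℚ) : ℝ) = a := by
    rw [hα, ha]
    push_cast
    rfl
  obtain ⟨Bc, C, hC, hT⟩ := taylor α (J + 1)
  set β0 : ℝ := (r0 : ℝ) ^ a with hβ0'
  have hrpos : (0 : ℝ) < r0 := by exact_mod_cast Nat.pos_of_ne_zero hr00
  have hβ0pos : 0 < β0 := Real.rpow_pos_of_pos hrpos _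
  have hβ0alg : IsAlgebraic ℚ β0 := by
    apply IsAlgebraic.of_pow (n := q) hq
    have h1 : β0 ^ q = ((r0 ^ p : ℕ) : ℝ) := by
      rw [hβ0', ← Real.rpow_natCast, ← Real.rpow_mul hrpos.le, ha, div_mul_cancel₀ _ hq0.ne',
        Real.rpow_natCast]
      push_cast
      rfl
    rw [h1]
    exact isAlgebraic_natCast _
  -- the exponents
  set T : ℝ := β * (J * (J + 1) / 2) with hTdef
  set g : ℝ := min (p - a - κ) ((1 - β) * (J + 1) - a) with hg
  have hTg : T < g := lt_min hJ1 hJ2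
  set γ : ℝ := (T + g) / 2 with hγdef
  have hTγ : T < γ := by rw [hγdef]; linarith
  have hγg : γ < g := by rw [hγdef]; linarith
  have hN := A.tendsto_N
  set C' : ℝ := K * 2 ^ ((p : ℝ) - a) + C with hC'
  have hC'0 : 0 < C' := by positivity
  have hpa : 0 ≤ (p : ℝ) - a := by
    rw [ha, sub_nonneg, div_le_iff₀ hq0]
    have : (1 : ℝ) ≤ q := by exact_mod_cast hq
    nlinarith
  -- the main estimate
  have hmain : ∀ᶠ m in (U : Filter ℕ), |(((A.u m : ℤ) ^ J : ℤ) : ℝ) * ((A.Y m : ℤ) : ℝ) -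
      ∑ i : Fin (J + 1), (β0 * (Bc i : ℝ)) *
        (((A.u m : ℤ) ^ (J - (i : ℕ)) * A.B m ^ (i : ℕ) * (w m : ℤ) ^ p : ℤ) : ℝ)| ≤
      |(((A.u m : ℤ) ^ J : ℤ) : ℝ)| * Real.exp (-(γ * A.N m)) := by
    have hτU : Tendsto A.τ U (𝓝 0) := (A.tendsto_τ hβ1).mono_left hU
    have h2 : Tendsto (fun m => (g - γ) * A.N m) U atTop :=
      (hN.const_mul_atTop (by linarith)).mono_left hU
    filter_upwards [hr0', hτU.eventually hT, hτU.eventually (Metric.ball_mem_nhds 0
      (by norm_num : (0 : ℝ) < 1 / 2)),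
      h2.eventually_ge_atTop (Real.log C')] with m e2 e3 e4 e6
    rw [dist_zero_right, Real.norm_eq_abs] at e4
    set t := A.τ m with ht
    have ht' := abs_lt.1 e4
    have hu0 : (0 : ℝ) < A.u m := by exact_mod_cast A.u_pos m
    have hsum : ∑ i : Fin (J + 1), (β0 * (Bc i : ℝ)) *
        (((A.u m : ℤ) ^ (J - (i : ℕ)) * A.B m ^ (i : ℕ) * (w m : ℤ) ^ p : ℤ) : ℝ) =
        (A.u m : ℝ) ^ J * (β0 * (w m : ℝ) ^ p * ∑ i ∈ Finset.range (J + 1),
          (Bc i : ℝ) * t ^ i) := by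
      rw [Finset.sum_range, Finset.mul_sum, Finset.mul_sum]
      refine Finset.sum_congr rfl fun i _ => ?_
      have h3 : (A.u m : ℝ) ^ J = (A.u m : ℝ) ^ (J - (i : ℕ)) * (A.u m : ℝ) ^ (i : ℕ) := by
        rw [← pow_add, Nat.sub_add_cancel (Nat.lt_succ_iff.1 i.2)]
      have h4 : (A.B m : ℝ) = A.u m * t := by
        rw [ht]
        unfold τ
        field_simp
      push_cast
      rw [h3, h4, mul_pow]
      ring
    rw [hsum]
    push_cast
    rw [← mul_sub, abs_mul]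
    apply mul_le_mul_of_nonneg_left _ (abs_nonneg _)
    set X : ℝ := (A.u m : ℝ) + A.B m with hX
    have hXA : X = A.u m * (1 + t) := A.ξ_eq m
    have hX0 : 0 < X := by
      rw [hXA]
      exact mul_pos hu0 (by linarith [ht'.1])
    have hXu : (A.u m : ℝ) / 2 ≤ X := by
      rw [hXA]
      nlinarith [ht'.1]
    have hA0α : (A.u m : ℝ) ^ a = β0 * (w m : ℝ) ^ p := by
      have h3 : (A.u m : ℝ) = (r0 : ℝ) * (w m : ℝ) ^ q := by
        have h4 := hrw m
        rw [e2] at h4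
        exact_mod_cast h4
      rw [h3, Real.mul_rpow hrpos.le (by positivity), ← Real.rpow_natCast (w m : ℝ) q,
        ← Real.rpow_mul (Nat.cast_nonneg _), ha, mul_div_cancel₀ _ hq0.ne', Real.rpow_natCast]
    have hXα : X ^ a = β0 * (w m : ℝ) ^ p * (1 + t) ^ a := by
      rw [hXA, Real.mul_rpow hu0.le (by linarith [ht'.1]), hA0α]
    rw [hαR] at e3
    have f1 : |(A.Y m : ℝ) - X ^ a| ≤ K * 2 ^ ((p : ℝ) - a) * Real.exp (-(g * A.N m)) := by
      obtain ⟨q', hq'⟩ : ∃ q', q = q' + 1 := ⟨q - 1, by omega⟩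
      have h3 : (X ^ a) ^ (q' + 1) = X ^ p := by
        rw [← Real.rpow_natCast, ← Real.rpow_mul hX0.le, ← hq', ha, div_mul_cancel₀ _ hq0.ne',
          Real.rpow_natCast]
      have h4 := abs_sub_mul_le (A.Y m : ℝ) (X ^ a) (by exact_mod_cast A.hY m)
        (Real.rpow_nonneg hX0.le _) q'
      rw [h3, ← hq'] at h4
      have h5 := A.hk m
      have h6 : (X ^ a) ^ q' = X ^ ((p : ℝ) - a) := by
        rw [← Real.rpow_natCast (X ^ a) q', ← Real.rpow_mul hX0.le]
        congr 1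
        rw [ha, hq']
        push_cast
        field_simp
        ring
      rw [h6] at h4
      have h7 : Real.exp (((p : ℝ) - a) * A.N m) ≤ 2 ^ ((p : ℝ) - a) * X ^ ((p : ℝ) - a) := by
        rw [← A.rpow_u, ← Real.mul_rpow (by norm_num) hX0.le]
        exact Real.rpow_le_rpow hu0.le (by linarith) hpa
      have h8 : K / ((m : ℝ) + 1) * (A.u m : ℝ) ^ κ ≤ K * Real.exp (κ * A.N m) := by
        rw [A.rpow_u]
        apply mul_le_mul_of_nonneg_right _ (Real.exp_pos _).le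
        apply div_le_self hK
        linarith [(Nat.cast_nonneg m : (0 : ℝ) ≤ m)]
      have h9 : |(A.Y m : ℝ) - X ^ a| * X ^ ((p : ℝ) - a) ≤ K * Real.exp (κ * A.N m) :=
        h4.trans (h5.trans h8)
      have h10 : 0 < Real.exp (((p : ℝ) - a) * A.N m) := Real.exp_pos _
      have h11 : |(A.Y m : ℝ) - X ^ a| * Real.exp (((p : ℝ) - a) * A.N m) ≤
          K * 2 ^ ((p : ℝ) - a) * Real.exp (-(g * A.N m)) *
            Real.exp (((p : ℝ) - a) * A.N m) := by
        calc |(A.Y m : ℝ) - X ^ a| * Real.exp (((p : ℝ) - a) * A.N m) ≤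
              |(A.Y m : ℝ) - X ^ a| * (2 ^ ((p : ℝ) - a) * X ^ ((p : ℝ) - a)) :=
              mul_le_mul_of_nonneg_left h7 (abs_nonneg _)
          _ = 2 ^ ((p : ℝ) - a) * (|(A.Y m : ℝ) - X ^ a| * X ^ ((p : ℝ) - a)) := by ring
          _ ≤ 2 ^ ((p : ℝ) - a) * (K * Real.exp (κ * A.N m)) :=
              mul_le_mul_of_nonneg_left h9 (by positivity)
          _ = K * 2 ^ ((p : ℝ) - a) * Real.exp (κ * A.N m) := by ring
          _ ≤ K * 2 ^ ((p : ℝ) - a) * Real.exp (-(g * A.N m) + ((p : ℝ) - a) * A.N m) := by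
              apply mul_le_mul_of_nonneg_left _ (by positivity)
              apply Real.exp_le_exp.2
              have h12 : g ≤ p - a - κ := min_le_left _ _
              have h13 := A.N_nonneg m
              nlinarith
          _ = _ := by rw [Real.exp_add]; ring
      exact le_of_mul_le_mul_right h11 h10
    have f2 : |X ^ a - β0 * (w m : ℝ) ^ p *
        ∑ i ∈ Finset.range (J + 1), (Bc i : ℝ) * t ^ i| ≤ C * Real.exp (-(g * A.N m)) := by
      rw [hXα, ← mul_sub, abs_mul, abs_of_pos (show 0 < β0 * (w m : ℝ) ^ p by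
        have : (0 : ℝ) < w m := by exact_mod_cast Nat.pos_of_ne_zero (hw0 m)
        positivity), ← hA0α, A.rpow_u]
      have h4 : |t| ^ (J + 1) ≤ Real.exp (-((J + 1) * ((1 - β) * A.N m))) := by
        calc |t| ^ (J + 1) ≤ (Real.exp (-((1 - β) * A.N m))) ^ (J + 1) :=
              pow_le_pow_left₀ (abs_nonneg _) (A.τ_le m) _
          _ = _ := by
              rw [← Real.exp_nat_mul]
              congr 1
              push_cast
              ring
      calc Real.exp (a * A.N m) * |(1 + t) ^ a -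
            ∑ i ∈ Finset.range (J + 1), (Bc i : ℝ) * t ^ i| ≤
            Real.exp (a * A.N m) * (C * Real.exp (-((J + 1) * ((1 - β) * A.N m)))) := by
            apply mul_le_mul_of_nonneg_left _ (Real.exp_pos _).le
            exact e3.trans (mul_le_mul_of_nonneg_left h4 hC.le)
        _ = C * Real.exp (a * A.N m + -((J + 1) * ((1 - β) * A.N m))) := by
            rw [Real.exp_add]
            ring
        _ ≤ C * Real.exp (-(g * A.N m)) := by
            apply mul_le_mul_of_nonneg_left _ hC.le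
            apply Real.exp_le_exp.2
            have h12 : g ≤ (1 - β) * (J + 1) - a := min_le_right _ _
            have h13 := A.N_nonneg m
            nlinarith
    have f3 : |(A.Y m : ℝ) - β0 * (w m : ℝ) ^ p *
        ∑ i ∈ Finset.range (J + 1), (Bc i : ℝ) * t ^ i| ≤ C' * Real.exp (-(g * A.N m)) := by
      have h3 := abs_sub_le (A.Y m : ℝ) (X ^ a)
        (β0 * (w m : ℝ) ^ p * ∑ i ∈ Finset.range (J + 1), (Bc i : ℝ) * t ^ i)
      rw [hC']
      linarith
    refine f3.trans ?_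
    have h6 : C' ≤ Real.exp ((g - γ) * A.N m) := (Real.log_le_iff_le_exp hC'0).1 e6
    calc C' * Real.exp (-(g * A.N m)) ≤ Real.exp ((g - γ) * A.N m) * Real.exp (-(g * A.N m)) :=
          mul_le_mul_of_nonneg_right h6 (Real.exp_pos _).le
      _ = _ := by
          rw [← Real.exp_add]
          congr 1
          ring
  -- the relation
  have hlog : ∀ (m : ℕ) (i : ℕ), i ≤ J → Real.log ((A.u m ^ (J - i) * w m ^ p : ℕ) : ℝ) ≤
      (J + p) * A.N m := by
    intro m i _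
    have h1 : A.u m ^ (J - i) * w m ^ p ≤ A.u m ^ (J + p) := by
      calc A.u m ^ (J - i) * w m ^ p ≤ A.u m ^ J * A.u m ^ p := by
            apply Nat.mul_le_mul
            · exact Nat.pow_le_pow_right (A.u_pos m) (Nat.sub_le _ _)
            · exact Nat.pow_le_pow_left (hwu m) _
        _ = _ := by ring
    have h2 : ((A.u m ^ (J - i) * w m ^ p : ℕ) : ℝ) ≤ ((A.u m ^ (J + p) : ℕ) : ℝ) := by
      exact_mod_cast h1
    have h3 : (0 : ℝ) < ((A.u m ^ (J - i) * w m ^ p : ℕ) : ℝ) := by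
      have := A.u_pos m
      have := Nat.pos_of_ne_zero (hw0 m)
      positivity
    have h4 := Real.log_le_log h3 h2
    rw [Nat.cast_pow (A.u m) (J + p), Real.log_pow] at h4
    push_cast at h4 ⊢
    exact h4
  have hcost : ∑ i : Fin (J + 1), β * ((i : ℕ) : ℝ) = T := by
    rw [← Finset.mul_sum, Fin.sum_univ_eq_sum_range (fun i => (i : ℝ)), hTdef]
    congr 1
    have h3 := Finset.sum_range_id_mul_two (J + 1)
    have h4 : ((∑ i ∈ Finset.range (J + 1), i : ℕ) : ℝ) * 2 = ((J : ℝ) + 1) * J := by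
      have : (((∑ i ∈ Finset.range (J + 1), i) * 2 : ℕ) : ℝ) =
          (((J + 1) * (J + 1 - 1) : ℕ) : ℝ) := by rw [h3]
      push_cast at this ⊢
      rw [this]
    push_cast at h4
    linarith
  obtain ⟨s, hs⟩ := lin_cost U (∏ p ∈ S.filter Nat.Prime, p) (ι := Fin (J + 1)) A.N
    (hN.mono_left hU) (fun m => (A.u m : ℤ) ^ J) (fun m => A.Y m) (fun m => A.u m ^ J)
    (fun i m => (A.u m : ℤ) ^ (J - (i : ℕ)) * A.B m ^ (i : ℕ) * (w m : ℤ) ^ p)
    (fun i m => A.u m ^ (J - (i : ℕ)) * w m ^ p) (fun i => β0 * (Bc i : ℝ))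
    (fun i => hβ0alg.mul (isAlgebraic_algebraMap (R := ℚ) (A := ℝ) (Bc i)))
    (Filter.Eventually.of_forall fun m => ⟨by
      push_cast
      exact dvd_refl _, pow_ne_zero _ (A.u_pos m).ne', fact_primes (fact_pow (A.hu m) J)⟩)
    (fun i => Filter.Eventually.of_forall fun m => ⟨by
      refine ⟨A.B m ^ (i : ℕ), ?_⟩
      push_cast
      ring, mul_ne_zero (pow_ne_zero _ (A.u_pos m).ne') (pow_ne_zero _ (hw0 m)),
      fact_primes (Nat.mul_mem_factoredNumbers (fact_pow (A.hu m) _) (fact_pow (hwF m) _))⟩)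
    (J + p) (by positivity)
    (Filter.Eventually.of_forall fun m => by
      push_cast
      rw [Real.log_pow]
      have := A.N_nonneg m
      show (J : ℝ) * A.N m ≤ _
      nlinarith)
    (fun i => Filter.Eventually.of_forall fun m => hlog m i (Nat.lt_succ_iff.1 i.2))
    (Filter.Eventually.of_forall fun m => by
      push_cast
      rw [abs_pow, Nat.abs_cast])
    (fun i => β * ((i : ℕ) : ℝ)) (fun i => by positivity)
    (fun i => Filter.Eventually.of_forall fun m => by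
      push_cast
      rw [abs_mul, abs_mul, abs_pow, abs_pow, abs_pow, Nat.abs_cast, Nat.abs_cast]
      have h1 : |(A.B m : ℝ)| ^ (i : ℕ) ≤ Real.exp (β * ((i : ℕ) : ℝ) * A.N m) := by
        calc |(A.B m : ℝ)| ^ (i : ℕ) ≤ ((A.u m : ℝ) ^ β) ^ (i : ℕ) :=
              pow_le_pow_left₀ (abs_nonneg _) (A.hB m) _
          _ = _ := by
              rw [A.rpow_u, ← Real.exp_nat_mul]
              congr 1
              ring
      calc (A.u m : ℝ) ^ (J - (i : ℕ)) * |(A.B m : ℝ)| ^ (i : ℕ) * (w m : ℝ) ^ p =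
            (A.u m : ℝ) ^ (J - (i : ℕ)) * (w m : ℝ) ^ p * |(A.B m : ℝ)| ^ (i : ℕ) := by ring
        _ ≤ _ := mul_le_mul_of_nonneg_left h1 (by positivity))
    γ (by rw [hcost]; exact hTγ) hmain
  refine ⟨r0, w, s, hr00, ?_⟩
  filter_upwards [hr0', hs] with m g1 g2
  refine ⟨hw0 m, by rw [← g1]; exact hrw m, ?_⟩
  have hu0 : (A.u m : ℚ) ≠ 0 := by exact_mod_cast (A.u_pos m).ne'
  have h1 : (A.u m : ℚ) ^ J * (A.Y m : ℚ) = (A.u m : ℚ) ^ J * ((w m : ℚ) ^ p *
      ∑ i : Fin (J + 1), s i * ((A.B m : ℚ) / A.u m) ^ (i : ℕ)) := by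
    have h2 : (A.u m : ℚ) ^ J * (A.Y m : ℚ) = (((A.u m : ℤ) ^ J * A.Y m : ℤ) : ℚ) := by
      push_cast
      rfl
    rw [h2, g2, Finset.mul_sum, Finset.mul_sum]
    refine Finset.sum_congr rfl fun i _ => ?_
    have h3 : (A.u m : ℚ) ^ J = (A.u m : ℚ) ^ (J - (i : ℕ)) * (A.u m : ℚ) ^ (i : ℕ) := by
      rw [← pow_add, Nat.sub_add_cancel (Nat.lt_succ_iff.1 i.2)]
    push_cast
    rw [h3, div_pow]
    field_simp
  exact mul_left_cancel₀ (pow_ne_zero _ hu0) h1

end Near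

end Pool.Agent.D0H59.NS
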