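import Mathlib
import Pool.Agent.D0H59.NS.Near

/-!
# The two cases of the inequality of Hall
-/

set_option autoImplicit false

open Finset Filter Topology

namespace Pool.Agent.D0H59.NS

lemma match2 (U : Ultrafilter ℕ) (τ θ h : ℕ → ℝ) (hτ : Tendsto τ U (𝓝 0))
    (hτ0 : ∀ᶠ m in (U : Filter ℕ), τ m ≠ 0) (hθ : Tendsto θ U (𝓝 0)) (g0 g1 : ℝ) (Kh : ℝ)
    (hh : ∀ᶠ m in (U : Filter ℕ), |h m| ≤ Kh)
    (hle : ∀ᶠ m in (U : Filter ℕ), |g0 + g1 * τ m + h m * τ m ^ 2| ≤ θ m * |τ m|) :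
    g0 = 0 ∧ g1 = 0 := by
  have hτa : Tendsto (fun m => |τ m|) U (𝓝 0) := by simpa using hτ.abs
  have h0 : g0 = 0 := by
    have h1 : Tendsto (fun m => θ m * |τ m| + |g1| * |τ m| + Kh * |τ m| * |τ m|) U (𝓝 0) := by
      have := ((hθ.mul hτa).add (hτa.const_mul |g1|)).add ((hτa.const_mul Kh).mul hτa)
      simpa using this
    have h2 : ∀ᶠ m in (U : Filter ℕ), |g0| ≤ θ m * |τ m| + |g1| * |τ m| +
        Kh * |τ m| * |τ m| := by
      filter_upwards [hh, hle] with m e1 e2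
      have e3 : |g0| ≤ |g0 + g1 * τ m + h m * τ m ^ 2| + |g1 * τ m| + |h m * τ m ^ 2| := by
        have : g0 = (g0 + g1 * τ m + h m * τ m ^ 2) + (-(g1 * τ m)) + (-(h m * τ m ^ 2)) := by ring
        calc |g0| = |(g0 + g1 * τ m + h m * τ m ^ 2) + (-(g1 * τ m)) + (-(h m * τ m ^ 2))| := by
              rw [← this]
          _ ≤ _ := by
              refine (abs_add_le _ _).trans ?_
              rw [abs_neg]
              refine add_le_add ((abs_add_le _ _).trans ?_) le_rfl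
              rw [abs_neg]
      rw [abs_mul, abs_mul, abs_pow, sq (|τ m|)] at e3
      have e4 : |h m| * (|τ m| * |τ m|) ≤ Kh * (|τ m| * |τ m|) :=
        mul_le_mul_of_nonneg_right e1 (by positivity)
      linarith
    have h3 := ge_of_tendsto h1 h2
    exact abs_nonpos_iff.1 h3
  refine ⟨h0, ?_⟩
  have h1 : Tendsto (fun m => θ m + Kh * |τ m|) U (𝓝 0) := by
    have := hθ.add (hτa.const_mul Kh)
    simpa using this
  have h2 : ∀ᶠ m in (U : Filter ℕ), |g1| ≤ θ m + Kh * |τ m| := by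
    filter_upwards [hh, hle, hτ0] with m e1 e2 e3
    rw [h0, zero_add] at e2
    have e4 : 0 < |τ m| := abs_pos.2 e3
    have e5 : |g1| * |τ m| ≤ (θ m + Kh * |τ m|) * |τ m| := by
      have e6 : |g1 * τ m| ≤ |g1 * τ m + h m * τ m ^ 2| + |h m * τ m ^ 2| := by
        have : g1 * τ m = (g1 * τ m + h m * τ m ^ 2) + (-(h m * τ m ^ 2)) := by ring
        calc |g1 * τ m| = |(g1 * τ m + h m * τ m ^ 2) + (-(h m * τ m ^ 2))| := by rw [← this]
          _ ≤ _ := by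
              refine (abs_add_le _ _).trans ?_
              rw [abs_neg]
      rw [abs_mul, abs_mul (h m), abs_pow, sq (|τ m|)] at e6
      have e7 : |h m| * (|τ m| * |τ m|) ≤ Kh * (|τ m| * |τ m|) :=
        mul_le_mul_of_nonneg_right e1 (by positivity)
      linarith
    exact le_of_mul_le_mul_right e5 e4
  exact abs_nonpos_iff.1 (ge_of_tendsto h1 h2)

lemma match3 (U : Ultrafilter ℕ) (τ θ h : ℕ → ℝ) (hτ : Tendsto τ U (𝓝 0))
    (hτ0 : ∀ᶠ m in (U : Filter ℕ), τ m ≠ 0) (hθ : Tendsto θ U (𝓝 0)) (g0 g1 g2 : ℝ) (Kh : ℝ)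
    (hh : ∀ᶠ m in (U : Filter ℕ), |h m| ≤ Kh)
    (hle : ∀ᶠ m in (U : Filter ℕ), |g0 + g1 * τ m + g2 * τ m ^ 2 + h m * τ m ^ 3| ≤
      θ m * τ m ^ 2) :
    g0 = 0 ∧ g1 = 0 ∧ g2 = 0 := by
  have hτa : Tendsto (fun m => |τ m|) U (𝓝 0) := by simpa using hτ.abs
  have hsmall : ∀ᶠ m in (U : Filter ℕ), |τ m| ≤ 1 :=
    (hτa.eventually (gt_mem_nhds one_pos)).mono fun m hm => le_of_lt hm
  obtain ⟨h0, h1⟩ := match2 U τ (fun m => θ m * |τ m|) (fun m => g2 + h m * τ m) hτ hτ0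
    (by simpa using hθ.mul hτa) g0 g1 (|g2| + |Kh|)
    (by
      filter_upwards [hh, hsmall] with m e1 e2
      refine (abs_add_le _ _).trans ?_
      rw [abs_mul]
      have e3 : |h m| * |τ m| ≤ |Kh| * 1 :=
        mul_le_mul (e1.trans (le_abs_self _)) e2 (abs_nonneg _) (abs_nonneg _)
      linarith)
    (by
      filter_upwards [hle] with m e1
      have e2 : g0 + g1 * τ m + (g2 + h m * τ m) * τ m ^ 2 =
          g0 + g1 * τ m + g2 * τ m ^ 2 + h m * τ m ^ 3 := by ring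
      rw [e2]
      refine e1.trans (le_of_eq ?_)
      rw [mul_assoc, ← sq, sq_abs])
  refine ⟨h0, h1, ?_⟩
  have h3 : Tendsto (fun m => θ m + Kh * |τ m|) U (𝓝 0) := by
    have := hθ.add (hτa.const_mul Kh)
    simpa using this
  have h4 : ∀ᶠ m in (U : Filter ℕ), |g2| ≤ θ m + Kh * |τ m| := by
    filter_upwards [hh, hle, hτ0] with m e1 e2 e3
    rw [h0, h1, zero_mul, zero_add, zero_add] at e2
    have e4 : 0 < τ m ^ 2 := by positivity
    have e5 : |g2| * τ m ^ 2 ≤ (θ m + Kh * |τ m|) * τ m ^ 2 := by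
      have e6 : |g2 * τ m ^ 2| ≤ |g2 * τ m ^ 2 + h m * τ m ^ 3| + |h m * τ m ^ 3| := by
        have : g2 * τ m ^ 2 = (g2 * τ m ^ 2 + h m * τ m ^ 3) + (-(h m * τ m ^ 3)) := by ring
        calc |g2 * τ m ^ 2| = |(g2 * τ m ^ 2 + h m * τ m ^ 3) + (-(h m * τ m ^ 3))| := by
              rw [← this]
          _ ≤ _ := by
              refine (abs_add_le _ _).trans ?_
              rw [abs_neg]
      rw [abs_mul, abs_mul (h m), abs_of_pos e4, abs_pow] at e6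
      have e7 : |τ m| ^ 3 = |τ m| * τ m ^ 2 := by
        rw [← sq_abs (τ m)]
        ring
      rw [e7] at e6
      have e8 : |h m| * (|τ m| * τ m ^ 2) ≤ Kh * (|τ m| * τ m ^ 2) :=
        mul_le_mul_of_nonneg_right e1 (by positivity)
      linarith
    exact le_of_mul_le_mul_right e5 e4
  exact abs_nonpos_iff.1 (ge_of_tendsto h3 h4)

/-- a common denominator -/
lemma common_den {n : ℕ} (s : Fin n → ℚ) : ∃ (d : ℕ) (num : Fin n → ℤ), d ≠ 0 ∧
    ∀ i, s i * d = num i := by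
  classical
  have hnum : ∀ f, ∃ t : ℤ, s f * ((∏ i, (s i).den : ℕ) : ℚ) = t := by
    intro f
    refine ⟨(s f).num * (((∏ i, (s i).den) / (s f).den : ℕ) : ℤ), ?_⟩
    have h1 : (s f).den ∣ ∏ i, (s i).den := Finset.dvd_prod_of_mem _ (Finset.mem_univ f)
    have h2 : ((∏ i, (s i).den : ℕ) : ℚ) = (s f).den *
        (((∏ i, (s i).den) / (s f).den : ℕ) : ℚ) := by
      rw [← Nat.cast_mul, Nat.mul_div_cancel' h1]
    rw [Int.cast_mul, Int.cast_natCast]
    nth_rewrite 1 [h2]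
    rw [← mul_assoc, Rat.mul_den_eq_num]
  choose num hnum using hnum
  exact ⟨∏ i, (s i).den, num, Finset.prod_ne_zero_iff.2 fun f _ => (s f).den_nz, hnum⟩

lemma tendsto_theta (U : Ultrafilter ℕ) (hU : (U : Filter ℕ) ≤ atTop) (C : ℝ) :
    Tendsto (fun m : ℕ => C / ((m : ℝ) + 1)) U (𝓝 0) := by
  have h1 : Tendsto (fun m : ℕ => (m : ℝ) + 1) atTop atTop :=
    tendsto_atTop_add_const_right _ _ tendsto_natCast_atTop_atTop
  exact (h1.const_div_atTop C).mono_left hU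

namespace Near

variable {S : Finset ℕ} {β κ K : ℝ}

lemma one_le_abs_τ {p q : ℕ} (A : Near p q S β κ K) (m : ℕ) (h : A.B m ≠ 0) :
    (A.u m : ℝ)⁻¹ ≤ |A.τ m| := by
  unfold τ
  rw [abs_div, Nat.abs_cast, inv_eq_one_div]
  have h1 : (1 : ℝ) ≤ |(A.B m : ℝ)| := by exact_mod_cast Int.one_le_abs h
  have h2 : (0 : ℝ) < A.u m := by exact_mod_cast A.u_pos m
  exact div_le_div_of_nonneg_right h1 h2.le

/-- `x` close to an integer composed of primes in `S` -/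
theorem falseX (A : Near 3 2 S β κ K) (hβ0 : 0 ≤ β) (hβ : β < 1 / 4) (hκ : κ ≤ 1)
    (hκ' : κ < 3 / 2 - 3 * β) (hK : 0 ≤ K)
    (hne : ∀ m, A.Y m ^ 2 ≠ ((A.u m : ℤ) + A.B m) ^ 3) : False := by
  classical
  set U : Ultrafilter ℕ := Filter.hyperfilter ℕ with hUdef
  have hU : (U : Filter ℕ) ≤ atTop := Nat.hyperfilter_le_atTop
  obtain ⟨r, w, s, hr, hrel⟩ := A.rel (by norm_num) (by norm_num) hβ0 (by linarith) hK 2
    (by push_cast; linarith) (by push_cast; linarith) U hU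
  have hrR : (0 : ℝ) < r := by exact_mod_cast Nat.pos_of_ne_zero hr
  have hr1 : (1 : ℝ) ≤ r := by exact_mod_cast Nat.one_le_iff_ne_zero.2 hr
  set s0 : ℝ := (s 0 : ℝ) with hs0
  set s1 : ℝ := (s 1 : ℝ) with hs1
  set s2 : ℝ := (s 2 : ℝ) with hs2
  set G : ℝ → ℝ := fun t => (s0 ^ 2 - r ^ 3) + (2 * s0 * s1 - 3 * r ^ 3) * t +
    (s1 ^ 2 + 2 * s0 * s2 - 3 * r ^ 3) * t ^ 2 + ((2 * s1 * s2 - r ^ 3) + s2 ^ 2 * t) * t ^ 3
    with hG
  -- the difference
  have hdiff : ∀ᶠ m in (U : Filter ℕ), w m ≠ 0 ∧ (A.u m : ℝ) = r * (w m : ℝ) ^ 2 ∧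
      (A.Y m : ℝ) ^ 2 - ((A.u m : ℝ) + A.B m) ^ 3 = (w m : ℝ) ^ 6 * G (A.τ m) := by
    filter_upwards [hrel] with m hm
    obtain ⟨g1, g2, g3⟩ := hm
    have g2' : (A.u m : ℝ) = r * (w m : ℝ) ^ 2 := by exact_mod_cast g2
    refine ⟨g1, g2', ?_⟩
    have g4 : (A.Y m : ℝ) = (w m : ℝ) ^ 3 * (s0 + s1 * A.τ m + s2 * A.τ m ^ 2) := by
      have g5 : (A.Y m : ℝ) = (w m : ℝ) ^ 3 * ∑ i : Fin 3, (s i : ℝ) *
          ((A.B m : ℝ) / A.u m) ^ (i : ℕ) := by
        exact_mod_cast congrArg (fun t : ℚ => (t : ℝ)) g3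
      rw [g5, Fin.sum_univ_three]
      simp only [Fin.val_zero, Fin.val_one, Fin.val_two, pow_zero, pow_one, mul_one]
      rfl
    rw [A.ξ_eq m, g4, g2', hG]
    ring
  have hbound : ∀ᶠ m in (U : Filter ℕ), |G (A.τ m)| ≤
      K * r ^ 3 / ((m : ℝ) + 1) * ((A.u m : ℝ)⁻¹) ^ 2 := by
    filter_upwards [hdiff] with m hm
    obtain ⟨g1, g2, g3⟩ := hm
    have h1 := A.hk m
    rw [g3, abs_mul] at h1
    have hw : (0 : ℝ) < w m := by exact_mod_cast Nat.pos_of_ne_zero g1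
    have hu1 := A.one_le_u m
    have h2 : (A.u m : ℝ) ^ κ ≤ A.u m := by
      calc (A.u m : ℝ) ^ κ ≤ (A.u m : ℝ) ^ (1 : ℝ) := Real.rpow_le_rpow_of_exponent_le hu1 hκ
        _ = _ := Real.rpow_one _
    have h3 : 0 ≤ K / ((m : ℝ) + 1) := by positivity
    have h4 : (w m : ℝ) ^ 6 * |G (A.τ m)| ≤ K / ((m : ℝ) + 1) * A.u m := by
      have h5 : |(w m : ℝ) ^ 6| = (w m : ℝ) ^ 6 := abs_of_pos (by positivity)
      rw [h5] at h1
      exact h1.trans (mul_le_mul_of_nonneg_left h2 h3)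
    have h5 : 0 < (w m : ℝ) ^ 6 := by positivity
    have h6 : (w m : ℝ) ^ 6 * |G (A.τ m)| ≤ (w m : ℝ) ^ 6 *
        (K * r ^ 3 / ((m : ℝ) + 1) * ((A.u m : ℝ)⁻¹) ^ 2) := by
      refine h4.trans (le_of_eq ?_)
      rw [g2]
      field_simp
    exact le_of_mul_le_mul_left h6 h5
  have hθ := tendsto_theta U hU (K * r ^ 3)
  by_cases hB : ∀ᶠ m in (U : Filter ℕ), A.B m = 0
  · -- no perturbation
    have h0 : s0 ^ 2 - (r : ℝ) ^ 3 = 0 := by
      have h1 : ∀ᶠ m : ℕ in (U : Filter ℕ), |s0 ^ 2 - (r : ℝ) ^ 3| ≤ K * r ^ 3 / ((m : ℝ) + 1) := by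
        filter_upwards [hB, hbound] with m g1 g2
        have g3 : A.τ m = 0 := by
          unfold τ
          rw [g1]
          simp
        rw [g3] at g2
        have g4 : G 0 = s0 ^ 2 - (r : ℝ) ^ 3 := by rw [hG]; ring
        rw [g4] at g2
        refine g2.trans ?_
        have hu1 := A.one_le_u m
        have g5 : ((A.u m : ℝ)⁻¹) ^ 2 ≤ 1 := by
          apply pow_le_one₀ (by positivity)
          exact inv_le_one_of_one_le₀ hu1
        have g6 : 0 ≤ K * r ^ 3 / ((m : ℝ) + 1) := by positivity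
        nlinarith
      exact abs_nonpos_iff.1 (ge_of_tendsto hθ h1)
    obtain ⟨m, g1, g2⟩ := (hB.and hdiff).exists
    obtain ⟨-, -, g3⟩ := g2
    have g4 : A.τ m = 0 := by
      unfold τ
      rw [g1]
      simp
    have g5 : G 0 = s0 ^ 2 - (r : ℝ) ^ 3 := by rw [hG]; ring
    rw [g4, g5, h0, mul_zero] at g3
    apply hne m
    have g6 : (A.Y m : ℝ) ^ 2 = ((A.u m : ℝ) + A.B m) ^ 3 := by linarith
    exact_mod_cast g6
  · -- a perturbation
    have hB' : ∀ᶠ m in (U : Filter ℕ), A.B m ≠ 0 := Ultrafilter.eventually_not.2 hB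
    have hτ : Tendsto A.τ U (𝓝 0) := (A.tendsto_τ (by linarith)).mono_left hU
    have hτ0 : ∀ᶠ m in (U : Filter ℕ), A.τ m ≠ 0 := by
      filter_upwards [hB'] with m g1
      have g2 := A.one_le_abs_τ m g1
      have g3 : (0 : ℝ) < A.u m := by exact_mod_cast A.u_pos m
      have g4 : 0 < |A.τ m| := lt_of_lt_of_le (by positivity) g2
      exact abs_pos.1 g4
    have hτ1 : ∀ᶠ m in (U : Filter ℕ), |A.τ m| ≤ 1 := by
      have hτa : Tendsto (fun m => |A.τ m|) U (𝓝 0) := by simpa using hτ.abs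
      exact (hτa.eventually (gt_mem_nhds one_pos)).mono fun m hm => le_of_lt hm
    obtain ⟨e0, e1, e2⟩ := match3 U A.τ (fun m => K * r ^ 3 / ((m : ℝ) + 1))
      (fun m => (2 * s1 * s2 - r ^ 3) + s2 ^ 2 * A.τ m) hτ hτ0 hθ (s0 ^ 2 - r ^ 3)
      (2 * s0 * s1 - 3 * r ^ 3) (s1 ^ 2 + 2 * s0 * s2 - 3 * r ^ 3)
      (|2 * s1 * s2 - r ^ 3| + s2 ^ 2)
      (by
        filter_upwards [hτ1] with m g1
        refine (abs_add_le _ _).trans ?_
        rw [abs_mul, abs_of_nonneg (sq_nonneg s2)]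
        have := mul_le_mul_of_nonneg_left g1 (sq_nonneg s2)
        linarith)
      (by
        filter_upwards [hbound, hB'] with m g1 g2
        refine g1.trans ?_
        have g3 := A.one_le_abs_τ m g2
        have g4 : (0 : ℝ) < A.u m := by exact_mod_cast A.u_pos m
        rw [← sq_abs (A.τ m)]
        apply mul_le_mul_of_nonneg_left _ (by positivity)
        exact pow_le_pow_left₀ (by positivity) g3 2)
    have hr3 : (0 : ℝ) < (r : ℝ) ^ 3 := by positivity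
    have hs2 : s2 ≠ 0 := by
      intro h0
      rw [h0] at e2
      have e2' : s1 ^ 2 = 3 * r ^ 3 := by linarith
      have e1' : 2 * s0 * s1 = 3 * r ^ 3 := by linarith
      have e0' : s0 ^ 2 = r ^ 3 := by linarith
      have h1 : (2 * s0 * s1) ^ 2 = 4 * s0 ^ 2 * s1 ^ 2 := by ring
      rw [e1', e0', e2'] at h1
      nlinarith
    -- integrality
    obtain ⟨d, num, hd, hnum⟩ := common_den s
    have hnum2 : num 2 ≠ 0 := by
      intro h0
      have h1 := hnum 2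
      rw [h0, Int.cast_zero] at h1
      rcases mul_eq_zero.1 h1 with h2 | h2
      · apply hs2
        rw [show s2 = ((s 2 : ℚ) : ℝ) from rfl, h2, Rat.cast_zero]
      · exact hd (by exact_mod_cast h2)
    have hdiv : ∀ᶠ m in (U : Filter ℕ), (w m : ℝ) ≤ |(num 2 : ℝ)| * |(A.B m : ℝ)| ^ 2 := by
      filter_upwards [hrel, hB'] with m hm g4
      obtain ⟨g1, g2, g3⟩ := hm
      have hwq : (w m : ℚ) ≠ 0 := by exact_mod_cast g1
      have hrq : (r : ℚ) ≠ 0 := by exact_mod_cast hr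
      have g5 : (A.u m : ℚ) = r * (w m : ℚ) ^ 2 := by exact_mod_cast g2
      rw [Fin.sum_univ_three, g5] at g3
      simp only [Fin.val_zero, Fin.val_one, Fin.val_two, pow_zero, pow_one, mul_one] at g3
      have g6 : (d : ℚ) * r ^ 2 * w m * A.Y m = num 0 * r ^ 2 * w m ^ 4 +
          num 1 * r * w m ^ 2 * A.B m + num 2 * A.B m ^ 2 := by
        rw [g3, ← hnum 0, ← hnum 1, ← hnum 2]
        field_simp
      have g7 : (num 2 * A.B m ^ 2 : ℤ) = w m * ((d : ℤ) * r ^ 2 * A.Y m -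
          num 0 * r ^ 2 * w m ^ 3 - num 1 * r * w m * A.B m) := by
        have g8 : ((num 2 * A.B m ^ 2 : ℤ) : ℚ) = ((w m * ((d : ℤ) * r ^ 2 * A.Y m -
          num 0 * r ^ 2 * w m ^ 3 - num 1 * r * w m * A.B m) : ℤ) : ℚ) := by
          push_cast
          linear_combination -g6
        exact_mod_cast g8
      have g8 : ((w m : ℕ) : ℤ) ∣ num 2 * A.B m ^ 2 := ⟨_, g7⟩
      have g9 : num 2 * A.B m ^ 2 ≠ 0 := mul_ne_zero hnum2 (pow_ne_zero _ g4)
      have g10 : ((w m : ℕ) : ℤ) ≤ |num 2 * A.B m ^ 2| :=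
        Int.le_of_dvd (abs_pos.2 g9) ((dvd_abs _ _).2 g8)
      have g11 : ((w m : ℕ) : ℝ) ≤ |(num 2 : ℝ) * A.B m ^ 2| := by exact_mod_cast g10
      rw [abs_mul, abs_pow] at g11
      exact g11
    -- contradiction
    have hβ4 : 0 < 1 - 4 * β := by linarith
    have hlim : Tendsto (fun m => (A.u m : ℝ) ^ (1 - 4 * β)) U atTop :=
      ((tendsto_rpow_atTop hβ4).comp A.ht).mono_left hU
    obtain ⟨m, g1, g2, g3⟩ := (hdiv.and (hdiff.and
      (hlim.eventually_gt_atTop (r * (num 2 : ℝ) ^ 2)))).exists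
    obtain ⟨g4, g5, -⟩ := g2
    have hu0 : (0 : ℝ) < A.u m := by exact_mod_cast A.u_pos m
    have hw0 : (0 : ℝ) ≤ w m := Nat.cast_nonneg _
    have h1 : (w m : ℝ) ≤ |(num 2 : ℝ)| * (A.u m : ℝ) ^ (2 * β) := by
      refine g1.trans (mul_le_mul_of_nonneg_left ?_ (abs_nonneg _))
      calc |(A.B m : ℝ)| ^ 2 ≤ ((A.u m : ℝ) ^ β) ^ 2 := pow_le_pow_left₀ (abs_nonneg _) (A.hB m) 2
        _ = (A.u m : ℝ) ^ (2 * β) := by
            rw [← Real.rpow_natCast, ← Real.rpow_mul hu0.le]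
            congr 1
            push_cast
            ring
    have h2 : (w m : ℝ) ^ 2 ≤ (num 2 : ℝ) ^ 2 * (A.u m : ℝ) ^ (4 * β) := by
      calc (w m : ℝ) ^ 2 ≤ (|(num 2 : ℝ)| * (A.u m : ℝ) ^ (2 * β)) ^ 2 :=
            pow_le_pow_left₀ hw0 h1 2
        _ = _ := by
            rw [mul_pow, sq_abs, ← Real.rpow_natCast ((A.u m : ℝ) ^ (2 * β)),
              ← Real.rpow_mul hu0.le]
            congr 2
            push_cast
            ring
    have h3 : (A.u m : ℝ) ≤ r * (num 2 : ℝ) ^ 2 * (A.u m : ℝ) ^ (4 * β) := by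
      calc (A.u m : ℝ) = r * (w m : ℝ) ^ 2 := g5
        _ ≤ r * ((num 2 : ℝ) ^ 2 * (A.u m : ℝ) ^ (4 * β)) :=
            mul_le_mul_of_nonneg_left h2 hrR.le
        _ = _ := by ring
    have h4 : (A.u m : ℝ) = (A.u m : ℝ) ^ (1 - 4 * β) * (A.u m : ℝ) ^ (4 * β) := by
      rw [← Real.rpow_add hu0]
      conv_lhs => rw [← Real.rpow_one (A.u m : ℝ)]
      congr 1
      ring
    have h5 : 0 < (A.u m : ℝ) ^ (4 * β) := Real.rpow_pos_of_pos hu0 _
    have h6 : (A.u m : ℝ) ^ (1 - 4 * β) * (A.u m : ℝ) ^ (4 * β) ≤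
        r * (num 2 : ℝ) ^ 2 * (A.u m : ℝ) ^ (4 * β) := by
      rw [← h4]
      exact h3
    have h7 := le_of_mul_le_mul_right h6 h5
    linarith

/-- `y` close to an integer composed of primes in `S` (here `Y` is the other number) -/
theorem falseY (A : Near 2 3 S β (2 / 3) K) (hβ0 : 0 ≤ β) (hβ : β < 4 / 9) (hK : 0 ≤ K)
    (hne : ∀ m, A.Y m ^ 3 ≠ ((A.u m : ℤ) + A.B m) ^ 2) : False := by
  classical
  set U : Ultrafilter ℕ := Filter.hyperfilter ℕ with hUdef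
  have hU : (U : Filter ℕ) ≤ atTop := Nat.hyperfilter_le_atTop
  obtain ⟨r, w, s, hr, hrel⟩ := A.rel (by norm_num) (by norm_num) hβ0 (by linarith) hK 1
    (by push_cast; linarith) (by push_cast; linarith) U hU
  have hrR : (0 : ℝ) < r := by exact_mod_cast Nat.pos_of_ne_zero hr
  have hr1 : (1 : ℝ) ≤ r := by exact_mod_cast Nat.one_le_iff_ne_zero.2 hr
  set s0 : ℝ := (s 0 : ℝ) with hs0
  set s1 : ℝ := (s 1 : ℝ) with hs1
  set G : ℝ → ℝ := fun t => (s0 ^ 3 - r ^ 2) + (3 * s0 ^ 2 * s1 - 2 * r ^ 2) * t +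
    (3 * s0 * s1 ^ 2 - r ^ 2) * t ^ 2 + s1 ^ 3 * t ^ 3 with hG
  -- the difference
  have hdiff : ∀ᶠ m in (U : Filter ℕ), w m ≠ 0 ∧ (A.u m : ℝ) = r * (w m : ℝ) ^ 3 ∧
      (A.Y m : ℝ) ^ 3 - ((A.u m : ℝ) + A.B m) ^ 2 = (w m : ℝ) ^ 6 * G (A.τ m) := by
    filter_upwards [hrel] with m hm
    obtain ⟨g1, g2, g3⟩ := hm
    have g2' : (A.u m : ℝ) = r * (w m : ℝ) ^ 3 := by exact_mod_cast g2
    refine ⟨g1, g2', ?_⟩
    have g4 : (A.Y m : ℝ) = (w m : ℝ) ^ 2 * (s0 + s1 * A.τ m) := by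
      have g5 : (A.Y m : ℝ) = (w m : ℝ) ^ 2 * ∑ i : Fin 2, (s i : ℝ) *
          ((A.B m : ℝ) / A.u m) ^ (i : ℕ) := by
        exact_mod_cast congrArg (fun t : ℚ => (t : ℝ)) g3
      rw [g5, Fin.sum_univ_two]
      simp only [Fin.val_zero, Fin.val_one, pow_zero, pow_one, mul_one]
      rfl
    rw [A.ξ_eq m, g4, g2', hG]
    ring
  have hbound : ∀ᶠ m in (U : Filter ℕ), |G (A.τ m)| ≤
      K * r / ((m : ℝ) + 1) * ((w m : ℝ)⁻¹) ^ 4 := by
    filter_upwards [hdiff] with m hm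
    obtain ⟨g1, g2, g3⟩ := hm
    have h1 := A.hk m
    rw [g3, abs_mul] at h1
    have hw : (0 : ℝ) < w m := by exact_mod_cast Nat.pos_of_ne_zero g1
    have h2 : (A.u m : ℝ) ^ (2 / 3 : ℝ) ≤ r * (w m : ℝ) ^ 2 := by
      rw [g2, Real.mul_rpow hrR.le (by positivity)]
      have h3 : ((w m : ℝ) ^ 3) ^ (2 / 3 : ℝ) = (w m : ℝ) ^ 2 := by
        rw [← Real.rpow_natCast (w m : ℝ) 3, ← Real.rpow_mul hw.le,
          ← Real.rpow_natCast (w m : ℝ) 2]
        congr 1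
        push_cast
        ring
      rw [h3]
      apply mul_le_mul_of_nonneg_right _ (by positivity)
      calc (r : ℝ) ^ (2 / 3 : ℝ) ≤ (r : ℝ) ^ (1 : ℝ) :=
            Real.rpow_le_rpow_of_exponent_le hr1 (by norm_num)
        _ = r := Real.rpow_one _
    have h3 : 0 ≤ K / ((m : ℝ) + 1) := by positivity
    have h4 : (w m : ℝ) ^ 6 * |G (A.τ m)| ≤ K / ((m : ℝ) + 1) * (r * (w m : ℝ) ^ 2) := by
      have h5 : |(w m : ℝ) ^ 6| = (w m : ℝ) ^ 6 := abs_of_pos (by positivity)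
      rw [h5] at h1
      exact h1.trans (mul_le_mul_of_nonneg_left h2 h3)
    have h5 : 0 < (w m : ℝ) ^ 6 := by positivity
    have h6 : (w m : ℝ) ^ 6 * |G (A.τ m)| ≤ (w m : ℝ) ^ 6 *
        (K * r / ((m : ℝ) + 1) * ((w m : ℝ)⁻¹) ^ 4) := by
      refine h4.trans (le_of_eq ?_)
      field_simp
    exact le_of_mul_le_mul_left h6 h5
  have hw1 : ∀ᶠ m in (U : Filter ℕ), ((w m : ℝ)⁻¹) ≤ 1 := by
    filter_upwards [hdiff] with m hm
    have h1 : (1 : ℝ) ≤ w m := by exact_mod_cast Nat.one_le_iff_ne_zero.2 hm.1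
    exact inv_le_one_of_one_le₀ h1
  by_cases hB : ∀ᶠ m in (U : Filter ℕ), A.B m = 0
  · -- no perturbation
    have hθ := tendsto_theta U hU (K * r)
    have h0 : s0 ^ 3 - (r : ℝ) ^ 2 = 0 := by
      have h1 : ∀ᶠ m : ℕ in (U : Filter ℕ), |s0 ^ 3 - (r : ℝ) ^ 2| ≤ K * r / ((m : ℝ) + 1) := by
        filter_upwards [hB, hbound, hw1] with m g1 g2 g7
        have g3 : A.τ m = 0 := by
          unfold τ
          rw [g1]
          simp
        rw [g3] at g2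
        have g4 : G 0 = s0 ^ 3 - (r : ℝ) ^ 2 := by rw [hG]; ring
        rw [g4] at g2
        refine g2.trans ?_
        have g5 : ((w m : ℝ)⁻¹) ^ 4 ≤ 1 := pow_le_one₀ (by positivity) g7
        have g6 : 0 ≤ K * r / ((m : ℝ) + 1) := by positivity
        nlinarith
      exact abs_nonpos_iff.1 (ge_of_tendsto hθ h1)
    obtain ⟨m, g1, g2⟩ := (hB.and hdiff).exists
    obtain ⟨-, -, g3⟩ := g2
    have g4 : A.τ m = 0 := by
      unfold τ
      rw [g1]
      simp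
    have g5 : G 0 = s0 ^ 3 - (r : ℝ) ^ 2 := by rw [hG]; ring
    rw [g4, g5, h0, mul_zero] at g3
    apply hne m
    have g6 : (A.Y m : ℝ) ^ 3 = ((A.u m : ℝ) + A.B m) ^ 2 := by linarith
    exact_mod_cast g6
  · -- a perturbation
    have hB' : ∀ᶠ m in (U : Filter ℕ), A.B m ≠ 0 := Ultrafilter.eventually_not.2 hB
    have hτ : Tendsto A.τ U (𝓝 0) := (A.tendsto_τ (by linarith)).mono_left hU
    have hτ0 : ∀ᶠ m in (U : Filter ℕ), A.τ m ≠ 0 := by
      filter_upwards [hB'] with m g1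
      have g2 := A.one_le_abs_τ m g1
      have g3 : (0 : ℝ) < A.u m := by exact_mod_cast A.u_pos m
      have g4 : 0 < |A.τ m| := lt_of_lt_of_le (by positivity) g2
      exact abs_pos.1 g4
    have hτ1 : ∀ᶠ m in (U : Filter ℕ), |A.τ m| ≤ 1 := by
      have hτa : Tendsto (fun m => |A.τ m|) U (𝓝 0) := by simpa using hτ.abs
      exact (hτa.eventually (gt_mem_nhds one_pos)).mono fun m hm => le_of_lt hm
    obtain ⟨e0, e1⟩ := match2 U A.τ (fun m => K * r ^ 2 / ((m : ℝ) + 1))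
      (fun m => (3 * s0 * s1 ^ 2 - r ^ 2) + s1 ^ 3 * A.τ m) hτ hτ0
      (tendsto_theta U hU (K * r ^ 2)) (s0 ^ 3 - r ^ 2) (3 * s0 ^ 2 * s1 - 2 * r ^ 2)
      (|3 * s0 * s1 ^ 2 - r ^ 2| + |s1 ^ 3|)
      (by
        filter_upwards [hτ1] with m g1
        refine (abs_add_le _ _).trans ?_
        rw [abs_mul]
        have := mul_le_mul_of_nonneg_left g1 (abs_nonneg (s1 ^ 3))
        linarith)
      (by
        filter_upwards [hbound, hB', hdiff, hw1] with m g1 g2 g3 g7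
        have g4 : (s0 ^ 3 - r ^ 2) + (3 * s0 ^ 2 * s1 - 2 * r ^ 2) * A.τ m +
            ((3 * s0 * s1 ^ 2 - r ^ 2) + s1 ^ 3 * A.τ m) * A.τ m ^ 2 = G (A.τ m) := by
          rw [hG]
          ring
        rw [g4]
        refine g1.trans ?_
        have g5 := A.one_le_abs_τ m g2
        rw [g3.2.1] at g5
        have hw : (0 : ℝ) < w m := by exact_mod_cast Nat.pos_of_ne_zero g3.1
        have g6 : ((w m : ℝ)⁻¹) ^ 4 ≤ r * |A.τ m| := by
          calc ((w m : ℝ)⁻¹) ^ 4 ≤ ((w m : ℝ)⁻¹) ^ 3 :=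
                pow_le_pow_of_le_one (by positivity) g7 (by norm_num)
            _ = r * (r * (w m : ℝ) ^ 3)⁻¹ := by
                field_simp
            _ ≤ r * |A.τ m| := mul_le_mul_of_nonneg_left g5 hrR.le
        calc K * r / ((m : ℝ) + 1) * ((w m : ℝ)⁻¹) ^ 4 ≤
              K * r / ((m : ℝ) + 1) * (r * |A.τ m|) :=
              mul_le_mul_of_nonneg_left g6 (by positivity)
          _ = _ := by ring)
    have hr2 : (0 : ℝ) < (r : ℝ) ^ 2 := by positivity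
    have hs1' : s1 ≠ 0 := by
      intro h0
      rw [h0] at e1
      nlinarith
    -- integrality
    obtain ⟨d, num, hd, hnum⟩ := common_den s
    have hnum1 : num 1 ≠ 0 := by
      intro h0
      have h1 := hnum 1
      rw [h0, Int.cast_zero] at h1
      rcases mul_eq_zero.1 h1 with h2 | h2
      · apply hs1'
        rw [show s1 = ((s 1 : ℚ) : ℝ) from rfl, h2, Rat.cast_zero]
      · exact hd (by exact_mod_cast h2)
    have hnR : 0 < |(num 1 : ℝ)| := abs_pos.2 (by exact_mod_cast hnum1)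
    have hdiv : ∀ᶠ m in (U : Filter ℕ), (w m : ℝ) ≤ |(num 1 : ℝ)| * |(A.B m : ℝ)| := by
      filter_upwards [hrel, hB'] with m hm g4
      obtain ⟨g1, g2, g3⟩ := hm
      have hwq : (w m : ℚ) ≠ 0 := by exact_mod_cast g1
      have hrq : (r : ℚ) ≠ 0 := by exact_mod_cast hr
      have g5 : (A.u m : ℚ) = r * (w m : ℚ) ^ 3 := by exact_mod_cast g2
      rw [Fin.sum_univ_two, g5] at g3
      simp only [Fin.val_zero, Fin.val_one, pow_zero, pow_one, mul_one] at g3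
      have g6 : (d : ℚ) * r * w m * A.Y m = num 0 * r * w m ^ 3 + num 1 * A.B m := by
        rw [g3, ← hnum 0, ← hnum 1]
        field_simp
      have g7 : (num 1 * A.B m : ℤ) = w m * ((d : ℤ) * r * A.Y m - num 0 * r * w m ^ 2) := by
        have g8 : ((num 1 * A.B m : ℤ) : ℚ) = ((w m * ((d : ℤ) * r * A.Y m -
          num 0 * r * w m ^ 2) : ℤ) : ℚ) := by
          push_cast
          linear_combination -g6
        exact_mod_cast g8
      have g8 : ((w m : ℕ) : ℤ) ∣ num 1 * A.B m := ⟨_, g7⟩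
      have g9 : num 1 * A.B m ≠ 0 := mul_ne_zero hnum1 g4
      have g10 : ((w m : ℕ) : ℤ) ≤ |num 1 * A.B m| :=
        Int.le_of_dvd (abs_pos.2 g9) ((dvd_abs _ _).2 g8)
      have g11 : ((w m : ℕ) : ℝ) ≤ |(num 1 : ℝ) * A.B m| := by exact_mod_cast g10
      rw [abs_mul] at g11
      exact g11
    -- the next coefficient
    obtain ⟨-, -, e2⟩ := match3 U A.τ
      (fun m => K * r * (|(num 1 : ℝ)| * r) ^ 2 / ((m : ℝ) + 1))
      (fun _ => s1 ^ 3) hτ hτ0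
      (tendsto_theta U hU _) (s0 ^ 3 - r ^ 2) (3 * s0 ^ 2 * s1 - 2 * r ^ 2)
      (3 * s0 * s1 ^ 2 - r ^ 2) |s1 ^ 3| (Filter.Eventually.of_forall fun _ => le_rfl)
      (by
        filter_upwards [hbound, hdiv, hdiff] with m g1 g2 g3
        refine g1.trans ?_
        have hw : (0 : ℝ) < w m := by exact_mod_cast Nat.pos_of_ne_zero g3.1
        have g5 : ((w m : ℝ)⁻¹) ^ 2 ≤ |(num 1 : ℝ)| * r * |A.τ m| := by
          unfold τ
          rw [abs_div, Nat.abs_cast, g3.2.1]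
          have g6 : |(num 1 : ℝ)| * r * (|(A.B m : ℝ)| / (r * (w m : ℝ) ^ 3)) =
              (|(num 1 : ℝ)| * |(A.B m : ℝ)|) / (w m : ℝ) ^ 3 := by
            field_simp
          rw [g6, le_div_iff₀ (by positivity)]
          have g7 : ((w m : ℝ)⁻¹) ^ 2 * (w m : ℝ) ^ 3 = w m := by
            field_simp
          rw [g7]
          exact g2
        have g6 : ((w m : ℝ)⁻¹) ^ 4 ≤ (|(num 1 : ℝ)| * r) ^ 2 * A.τ m ^ 2 := by
          calc ((w m : ℝ)⁻¹) ^ 4 = (((w m : ℝ)⁻¹) ^ 2) ^ 2 := by ring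
            _ ≤ (|(num 1 : ℝ)| * r * |A.τ m|) ^ 2 := pow_le_pow_left₀ (by positivity) g5 2
            _ = _ := by rw [mul_pow, sq_abs]
        calc K * r / ((m : ℝ) + 1) * ((w m : ℝ)⁻¹) ^ 4 ≤
              K * r / ((m : ℝ) + 1) * ((|(num 1 : ℝ)| * r) ^ 2 * A.τ m ^ 2) :=
              mul_le_mul_of_nonneg_left g6 (by positivity)
          _ = _ := by ring)
    have e0' : s0 ^ 3 = r ^ 2 := by linarith
    have e1' : 3 * s0 ^ 2 * s1 = 2 * r ^ 2 := by linarith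
    have e2' : 3 * s0 * s1 ^ 2 = r ^ 2 := by linarith
    have h1 : (3 * s0 ^ 2 * s1) ^ 2 = 3 * s0 ^ 3 * (3 * s0 * s1 ^ 2) := by ring
    rw [e0', e1', e2'] at h1
    nlinarith

end Near

end Pool.Agent.D0H59.NS
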